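import Pool.Agent.H253_Bi.Main

/-! # MP_b296a0_co, Q1: biregular graphs with three eigenvalues and bounded smallest eigenvalue

For every real `lam` there are, up to isomorphism, only finitely many connected biregular graphs
(the vertex degrees take exactly two values) whose adjacency matrix has exactly three distinct
eigenvalues, all of them at least `-lam`.
-/

open Finset

namespace Pool.Agent.Results.MP_b296a0_co.Finiteness

open scoped Classical in
/-- `G` is connected and biregular (its vertex degrees take exactly two values), its adjacency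
matrix has exactly three distinct eigenvalues, and every eigenvalue is at least `-lam`. -/
def InB {V : Type} [Fintype V] (G : SimpleGraph V) (lam : ℝ) : Prop :=
  G.Connected ∧ (Set.range fun v : V => (G.neighborSet v).ncard).ncard = 2 ∧
    (spectrum ℝ (G.adjMatrix ℝ)).ncard = 3 ∧ ∀ t ∈ spectrum ℝ (G.adjMatrix ℝ), -lam ≤ t

open Pool.Agent.H253_Bi in
theorem bound {V : Type} [Fintype V] (G : SimpleGraph V) (lam : ℝ) (h : InB G lam) (L : ℕ)
    (hL : lam ≤ L) : Fintype.card V ≤ NN L := by
  classical
  obtain ⟨hc, h2, h3, h4⟩ := h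
  obtain ⟨α, r, m, θ, htri, hm⟩ := spec (G := G) hc (by convert h3) lam (by
    intro t ht
    apply h4
    convert ht)
  obtain ⟨d, e, hde, hr⟩ := Set.ncard_eq_two.1 h2
  obtain ⟨d, e, hlt, hr⟩ : ∃ d e : ℕ, e < d ∧
      (Set.range fun v : V => (G.neighborSet v).ncard) = {d, e} := by
    rcases lt_or_gt_of_ne hde with h5 | h5
    · exact ⟨e, d, h5, by rw [hr, Set.pair_comm]⟩
    · exact ⟨d, e, h5, hr⟩
  have hnb : ∀ v : V, (G.neighborSet v).ncard = (nb G v).card := by
    intro v
    rw [← Set.ncard_coe_finset]
    congr 1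
    ext y
    simp [nb]
  have hmem : ∀ v : V, (nb G v).card = d ∨ (nb G v).card = e := by
    intro v
    have : (G.neighborSet v).ncard ∈ Set.range fun v : V => (G.neighborSet v).ncard := ⟨v, rfl⟩
    rw [hr, hnb] at this
    simpa using this
  obtain ⟨x, hx⟩ : ∃ x : V, (nb G x).card = d := by
    have : d ∈ Set.range fun v : V => (G.neighborSet v).ncard := by rw [hr]; simp
    obtain ⟨x, hx⟩ := this
    exact ⟨x, by rw [← hnb]; exact hx⟩
  obtain ⟨y, hy⟩ : ∃ y : V, (nb G y).card = e := by
    have : e ∈ Set.range fun v : V => (G.neighborSet v).ncard := by rw [hr]; simp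
    obtain ⟨y, hy⟩ := this
    exact ⟨y, by rw [← hnb]; exact hy⟩
  have hval : ∀ u v : V, (nb G u).card = (nb G v).card → α u = α v := by
    intro u v huv
    have h5 := htri.deg u
    have h6 := htri.deg v
    rw [huv] at h5
    have h7 : α u ^ 2 = α v ^ 2 := by linarith
    exact (pow_left_inj₀ (htri.pos u).le (htri.pos v).le (by norm_num)).1 h7
  have hbi : Bi G α r m θ (α x) (α y) (Finset.univ.filter (fun v => (nb G v).card = d))
      (Finset.univ.filter (fun v => (nb G v).card = e)) := by
    refine ⟨htri, hc, ?_, ?_, ?_, ⟨x, by simp [hx]⟩, ⟨y, by simp [hy]⟩, ?_⟩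
    · intro v hv
      exact hval v x (by rw [(Finset.mem_filter.1 hv).2, hx])
    · intro v hv
      exact hval v y (by rw [(Finset.mem_filter.1 hv).2, hy])
    · intro v
      rcases hmem v with h5 | h5
      · left; simp [h5]
      · right; simp [h5]
    · have h5 := htri.deg x
      have h6 := htri.deg y
      rw [hx] at h5
      rw [hy] at h6
      have h7 : (e : ℝ) < d := by exact_mod_cast hlt
      have h8 : α y ^ 2 < α x ^ 2 := by linarith
      exact lt_of_pow_lt_pow_left₀ 2 (htri.pos x).le h8
  exact hbi.bound L (le_trans hm hL)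

/-- For every real `lam`: the orders of the graphs in question are bounded, and there are only
finitely many such graphs with vertex set `{0, …, n - 1}`, `n` arbitrary, hence only finitely many
up to isomorphism. -/
theorem result (lam : ℝ) :
    (∃ N : ℕ, ∀ (V : Type) [Fintype V] (G : SimpleGraph V), InB G lam → Fintype.card V ≤ N) ∧
    {p : Σ n : ℕ, SimpleGraph (Fin n) | InB p.2 lam}.Finite := by
  obtain ⟨L, hL⟩ := exists_nat_ge lam
  refine ⟨⟨Pool.Agent.H253_Bi.NN L, fun V _ G h => bound G lam h L hL⟩, ?_⟩
  apply Set.Finite.subset (Set.finite_range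
    (fun q : Σ n : Fin (Pool.Agent.H253_Bi.NN L + 1), SimpleGraph (Fin n) =>
      (⟨q.1, q.2⟩ : Σ n : ℕ, SimpleGraph (Fin n))))
  rintro ⟨n, G⟩ h
  have h1 := bound G lam h L hL
  rw [Fintype.card_fin] at h1
  exact ⟨⟨⟨n, by omega⟩, G⟩, rfl⟩

end Pool.Agent.Results.MP_b296a0_co.Finiteness
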